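import Pool.Agent.Y560.TG.Stm

/-! TG-MAT: matching the elements of corresponding classes. -/

set_option autoImplicit false

namespace Pool.Agent.Y563.TG

open Set Pool.Agent.H899R2.VP
open Pool.Agent.Y560.TG (mat S_MAT)

variable {a : ℕ → ℕ} {M N : St a} {X Y : Set ℕ} {mt : ℕ → ℕ → Prop}

/-- the count of a predicate, with the classical decision -/
noncomputable def cnt (p : ℕ → Prop) (x : ℕ) : ℕ := @Nat.count p (Classical.decPred p) x

/-- the class of `x` -/
def Cp (X Y : Set ℕ) (mt : ℕ → ℕ → Prop) (x : ℕ) : ℕ → Prop :=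
  fun v => v ∈ X ∧ ∃ w ∈ Y, mt x w ∧ mt v w

/-- the corresponding class -/
def Dp (Y : Set ℕ) (mt : ℕ → ℕ → Prop) (x : ℕ) : ℕ → Prop := fun w => w ∈ Y ∧ mt x w

theorem mat_eq (x : ℕ) : mat X Y mt x = Nat.nth (Dp Y mt x) (cnt (Cp X Y mt x) x) := rfl

theorem card_le (hd : ∀ v w v' w', mt v w → mt v' w → mt v' w' → mt v w')
    (hB : BF M N X Y Ordinal.omega0 ∅)
    (hm : ∀ q x y, (x, y) ∈ q → BF M N X Y 1 q → mt x y) (x : ℕ) :
    {v | Cp X Y mt x v}.encard ≤ {w | Dp Y mt x w}.encard := by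
  by_contra hlt
  rw [not_le] at hlt
  have hfin : {w | Dp Y mt x w}.Finite := Set.encard_lt_top_iff.1 (lt_of_lt_of_le hlt le_top)
  obtain ⟨S, hS1, hS2⟩ := Set.exists_subset_encard_eq (Order.add_one_le_of_lt hlt)
  have hSf : S.Finite := by
    apply Set.encard_lt_top_iff.1
    rw [hS2, hfin.encard_eq_coe_toFinset_card]
    exact ENat.natCast_lt_top _
  obtain ⟨n, hn⟩ : ∃ n : ℕ, n = hSf.toFinset.toList.length := ⟨_, rfl⟩
  have h1 : BF M N X Y (1 + (n : Ordinal)) ∅ := by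
    apply hB.mono
    have : (1 : Ordinal) + (n : Ordinal) = ((1 + n : ℕ) : Ordinal) := by push_cast; rfl
    rw [this]
    exact (Ordinal.natCast_lt_omega0 _).le
  obtain ⟨t, ht1, ht2, ht3⟩ := h1.forth_list hSf.toFinset.toList (le_of_eq hn.symm) (by
    intro v hv
    rw [Finset.mem_toList, Set.Finite.mem_toFinset] at hv
    exact (hS1 hv).1)
  rw [empty_union] at ht3
  have h2 : ∀ v ∈ S, ∃ y, (v, y) ∈ zipSet hSf.toFinset.toList t := by
    intro v hv
    exact exists_zipSet_left ht1.symm (by rw [Finset.mem_toList, Set.Finite.mem_toFinset]; exact hv)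
  choose! f hf using h2
  have hinj : InjOn f S := by
    intro v hv v' hv' he
    exact ht3.piso.fst_eq (hf v hv) (hf v' hv') he
  have hmaps : f '' S ⊆ {w | Dp Y mt x w} := by
    rintro _ ⟨v, hv, rfl⟩
    obtain ⟨w, hw, hxw, hvw⟩ := (hS1 hv).2
    exact ⟨ht2 _ (mem_zipSet_right (hf v hv)), hd _ _ _ _ hxw hvw (hm _ _ _ (hf v hv) ht3)⟩
  have h3 := Set.encard_le_encard hmaps
  rw [hinj.encard_image, hS2] at h3
  have h4 := hfin.encard_eq_coe_toFinset_card
  rw [h4] at h3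
  exact absurd h3 (by
    rw [not_le]
    exact_mod_cast Nat.lt_succ_self _)

theorem card_ge 
    (hB : BF M N X Y Ordinal.omega0 ∅)
    (hm : ∀ q x y, (x, y) ∈ q → BF M N X Y 1 q → mt x y) (x : ℕ) :
    {w | Dp Y mt x w}.encard ≤ {v | Cp X Y mt x v}.encard := by
  by_contra hlt
  rw [not_le] at hlt
  have hfin : {v | Cp X Y mt x v}.Finite := Set.encard_lt_top_iff.1 (lt_of_lt_of_le hlt le_top)
  obtain ⟨S, hS1, hS2⟩ := Set.exists_subset_encard_eq (Order.add_one_le_of_lt hlt)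
  have hSf : S.Finite := by
    apply Set.encard_lt_top_iff.1
    rw [hS2, hfin.encard_eq_coe_toFinset_card]
    exact ENat.natCast_lt_top _
  obtain ⟨n, hn⟩ : ∃ n : ℕ, n = hSf.toFinset.toList.length := ⟨_, rfl⟩
  have h1 : BF M N X Y (1 + (n : Ordinal)) ∅ := by
    apply hB.mono
    have : (1 : Ordinal) + (n : Ordinal) = ((1 + n : ℕ) : Ordinal) := by push_cast; rfl
    rw [this]
    exact (Ordinal.natCast_lt_omega0 _).le
  obtain ⟨s, hs1, hs2, hs3⟩ := h1.back_list hSf.toFinset.toList (le_of_eq hn.symm) (by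
    intro v hv
    rw [Finset.mem_toList, Set.Finite.mem_toFinset] at hv
    exact (hS1 hv).1)
  rw [empty_union] at hs3
  have h2 : ∀ v ∈ S, ∃ y, (y, v) ∈ zipSet s hSf.toFinset.toList := by
    intro v hv
    obtain ⟨y, hy⟩ := exists_zipSet_left (s := hSf.toFinset.toList) (t := s) hs1.symm
      (x := v) (by rw [Finset.mem_toList, Set.Finite.mem_toFinset]; exact hv)
    refine ⟨y, ?_⟩
    rw [← inv_zipSet, mem_inv']
    exact hy
  choose! f hf using h2
  have hinj : InjOn f S := by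
    intro v hv v' hv' he
    exact hs3.piso.snd_eq (hf v hv) (hf v' hv') he
  have hmaps : f '' S ⊆ {v | Cp X Y mt x v} := by
    rintro _ ⟨v, hv, rfl⟩
    exact ⟨hs2 _ (mem_zipSet_left (hf v hv)), v, (hS1 hv).1, (hS1 hv).2, hm _ _ _ (hf v hv) hs3⟩
  have h3 := Set.encard_le_encard hmaps
  rw [hinj.encard_image, hS2] at h3
  have h4 := hfin.encard_eq_coe_toFinset_card
  rw [h4] at h3
  exact absurd h3 (by
    rw [not_le]
    exact_mod_cast Nat.lt_succ_self _)

theorem card_eq (hd : ∀ v w v' w', mt v w → mt v' w → mt v' w' → mt v w')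
    (hB : BF M N X Y Ordinal.omega0 ∅)
    (hm : ∀ q x y, (x, y) ∈ q → BF M N X Y 1 q → mt x y) (x : ℕ) :
    {v | Cp X Y mt x v}.encard = {w | Dp Y mt x w}.encard :=
  le_antisymm (card_le hd hB hm x) (card_ge hB hm x)

theorem lt_of_card {p q : ℕ → Prop} (h : {v | p v}.encard = {w | q w}.encard) {n : ℕ}
    (hn : ∀ hf : {v | p v}.Finite, n < hf.toFinset.card) (hf : {w | q w}.Finite) :
    n < hf.toFinset.card := by
  have h1 : {v | p v}.Finite := Set.encard_lt_top_iff.1 (by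
    rw [h]
    exact Set.encard_lt_top_iff.2 hf)
  have h2 := hn h1
  rw [h1.encard_eq_coe_toFinset_card, hf.encard_eq_coe_toFinset_card] at h
  have h3 : h1.toFinset.card = hf.toFinset.card := by exact_mod_cast h
  rwa [← h3]

theorem cnt_lt {p : ℕ → Prop} {x : ℕ} (hx : p x) (hf : {v | p v}.Finite) :
    cnt p x < hf.toFinset.card := by
  let _ := Classical.decPred p
  exact Nat.count_lt_card hf hx

theorem cnt_nth {p : ℕ → Prop} {n : ℕ} (hn : ∀ hf : {v | p v}.Finite, n < hf.toFinset.card) :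
    cnt p (Nat.nth p n) = n := by
  let _ := Classical.decPred p
  exact Nat.count_nth hn

theorem nth_cnt {p : ℕ → Prop} {x : ℕ} (hx : p x) : Nat.nth p (cnt p x) = x := by
  let _ := Classical.decPred p
  exact Nat.nth_count hx

theorem cnt_inj {p : ℕ → Prop} {x y : ℕ} (hx : p x) (hy : p y) (h : cnt p x = cnt p y) : x = y := by
  rw [← nth_cnt hx, h, nth_cnt hy]

theorem main (hd : ∀ v w v' w', mt v w → mt v' w → mt v' w' → mt v w')
    (hB : BF M N X Y Ordinal.omega0 ∅)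
    (hm : ∀ q x y, (x, y) ∈ q → BF M N X Y 1 q → mt x y) :
    (∀ x ∈ X, mat X Y mt x ∈ Y ∧ mt x (mat X Y mt x)) ∧ InjOn (mat X Y mt) X ∧
    ∀ y ∈ Y, ∃ x ∈ X, mat X Y mt x = y := by
  have h1o : (1 : Ordinal.{0}) < Ordinal.omega0 := Ordinal.one_lt_omega0
  have hself : ∀ x ∈ X, Cp X Y mt x x := by
    intro x hx
    obtain ⟨w, hw, hb⟩ := hB.forth h1o hx
    have := hm _ x w (Or.inl rfl) hb
    exact ⟨hx, w, hw, this, this⟩
  have hlt : ∀ x ∈ X, ∀ hf : {w | Dp Y mt x w}.Finite, cnt (Cp X Y mt x) x < hf.toFinset.card :=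
    fun x hx hf => lt_of_card (card_eq hd hB hm x) (fun hf => cnt_lt (hself x hx) hf) hf
  have hmem : ∀ x ∈ X, Dp Y mt x (mat X Y mt x) := by
    intro x hx
    rw [mat_eq]
    exact Nat.nth_mem _ (hlt x hx)
  have hD : ∀ x x' w, w ∈ Y → mt x w → mt x' w → Dp Y mt x = Dp Y mt x' := by
    intro x x' w _ h1 h2
    funext w'
    apply propext
    constructor
    · rintro ⟨h3, h4⟩
      exact ⟨h3, hd _ _ _ _ h2 h1 h4⟩
    · rintro ⟨h3, h4⟩
      exact ⟨h3, hd _ _ _ _ h1 h2 h4⟩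
  have hC : ∀ x x' w, w ∈ Y → mt x w → mt x' w → Cp X Y mt x = Cp X Y mt x' := by
    intro x x' w hw h1 h2
    have h3 := hD x x' w hw h1 h2
    funext v
    apply propext
    constructor
    · rintro ⟨h4, w', hw', h5, h6⟩
      have : Dp Y mt x' w' := by rw [← h3]; exact ⟨hw', h5⟩
      exact ⟨h4, w', hw', this.2, h6⟩
    · rintro ⟨h4, w', hw', h5, h6⟩
      have : Dp Y mt x w' := by rw [h3]; exact ⟨hw', h5⟩
      exact ⟨h4, w', hw', this.2, h6⟩
  refine ⟨fun x hx => hmem x hx, ?_, ?_⟩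
  · intro x hx x' hx' he
    have h1 := hmem x hx
    have h2 := hmem x' hx'
    rw [← he] at h2
    have e1 := hD x x' _ h1.1 h1.2 h2.2
    have e2 := hC x x' _ h1.1 h1.2 h2.2
    have h3 : cnt (Dp Y mt x) (mat X Y mt x) = cnt (Cp X Y mt x) x := by
      rw [mat_eq]
      exact cnt_nth (hlt x hx)
    have h4 : cnt (Dp Y mt x') (mat X Y mt x') = cnt (Cp X Y mt x') x' := by
      rw [mat_eq]
      exact cnt_nth (hlt x' hx')
    rw [← e1, ← e2, ← he, h3] at h4
    have h5 : Cp X Y mt x x' := by rw [e2]; exact hself x' hx'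
    exact cnt_inj (hself x hx) h5 h4
  · intro y hy
    obtain ⟨x0, hx0, hb⟩ := hB.back h1o hy
    have h0 : Dp Y mt x0 y := ⟨hy, hm _ x0 y (Or.inl rfl) hb⟩
    have hlt' : ∀ hf : {v | Cp X Y mt x0 v}.Finite, cnt (Dp Y mt x0) y < hf.toFinset.card :=
      fun hf => lt_of_card (card_eq hd hB hm x0).symm (fun hf => cnt_lt h0 hf) hf
    obtain ⟨x, hx⟩ : ∃ x, x = Nat.nth (Cp X Y mt x0) (cnt (Dp Y mt x0) y) := ⟨_, rfl⟩
    have hxC : Cp X Y mt x0 x := by rw [hx]; exact Nat.nth_mem _ hlt'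
    obtain ⟨hxX, w, hw, hw1, hw2⟩ := hxC
    refine ⟨x, hxX, ?_⟩
    rw [mat_eq, ← hD x0 x w hw hw1 hw2, ← hC x0 x w hw hw1 hw2, hx, cnt_nth hlt', nth_cnt h0]

theorem t_MAT : S_MAT := fun _ _ _ _ _ hd hB hm => main hd hB hm

end Pool.Agent.Y563.TG
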